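import Pool.Agent.H8.MC.Targets
import Pool.Agent.H84.TW.PB

/-!
# Board mcl_modules, module IMG: images of spectra under monomials
-/

set_option autoImplicit false

namespace Pool.Agent.H64.MC

open Pool.Agent.H69.Sp Pool.Agent.H69.Mt Pool.Agent.H8.MC

private theorem fd_mono' (c r : ℕ) (hc : 0 < c) :
    FD (fun _ _ v => 1 ≤ v 2 ∧ v 1 = c * v 2 ^ r) := by
  refine (FD.ex 3 (FD.ex 4 ((Pool.Agent.H84.TW.fd_pow r 2 3).and
    ((FD.num c 4).and (FD.mul 4 3 1))))).congr fun N E v hv => ?_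
  simp only [Function.update_self, Function.update_of_ne, ne_eq, not_false_eq_true,
    OfNat.one_ne_ofNat, Nat.reduceEqDiff]
  constructor
  · rintro ⟨t, _, w, _, ⟨h1, h2⟩, h3, h4⟩
    exact ⟨h1, by rw [← h4, h3, h2]⟩
  · rintro ⟨h1, h2⟩
    have h3 : 1 ≤ v 2 ^ r := Nat.one_le_pow _ _ h1
    have h4 := hv 1
    rw [h2] at h4
    have h5 : 1 * v 2 ^ r ≤ c * v 2 ^ r := Nat.mul_le_mul_right _ hc
    have h6 : c * 1 ≤ c * v 2 ^ r := Nat.mul_le_mul_left _ h3
    exact ⟨v 2 ^ r, by omega, c, by omega, ⟨h1, rfl⟩, rfl, h2.symm⟩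

/-- (IMG) images of spectra under monomials. -/
theorem pf_img : T_IMG := by
  intro S hS L s hL hs
  have hpos : ∀ y ∈ S, 1 ≤ y := by
    obtain ⟨_, _, _, _, rfl⟩ := hS
    exact fun y hy => hy.1
  refine wrapT (P := fun N _ n => ∃ y, y < N ∧ ((1 ≤ y ∧ n = L * y ^ s) ∧ y ∈ S)) ?_ ?_ 0
    fun n hn => ?_
  · refine (ED.ex 2 ((fd_mono' L s hL).ed.and (mem_ed hS 2))).congr fun N E v hv => ?_
    simp only [Function.update_self, Function.update_of_ne, ne_eq, not_false_eq_true,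
      OfNat.one_ne_ofNat]
  · rintro ⟨m, hm, h0⟩
    have h1 : 0 < m ^ s := Nat.pow_pos (hpos m hm)
    have h2 : 0 < L * m ^ s := Nat.mul_pos hL h1
    omega
  · have hle : ∀ y, 1 ≤ y → n = L * y ^ s → y < (n ^ 2 ^ 0) ^ 8 := by
      intro y hy h
      have h1 : y ≤ y ^ s := Nat.le_self_pow hs.ne' y
      have h2 : 1 * y ^ s ≤ L * y ^ s := Nat.mul_le_mul_right _ hL
      have h3 : n < n ^ 8 := by
        calc n = n ^ 1 := (pow_one n).symm
          _ < n ^ 8 := Nat.pow_lt_pow_right (by omega) (by norm_num)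
      rw [pow_zero, pow_one]
      omega
    constructor
    · rintro ⟨m, hm, h⟩
      exact ⟨fun _ _ => False, m, hle m (hpos m hm) h, ⟨hpos m hm, h⟩, hm⟩
    · rintro ⟨_, y, _, ⟨_, h⟩, hy⟩
      exact ⟨y, hy, h⟩

end Pool.Agent.H64.MC
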